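import Pool.Agent.V8H32.SP.Defs

set_option autoImplicit false

namespace Pool.Agent.V8H32.SP

/-- the representation ring of `GSpin(2n+1)` is generated by the exterior powers of the standard
representation, the spin representation and the similitude character -/
def StmRing : Prop := ∀ (n : ℕ) (m : Rep n), IsW m → ∃ (r : ℕ) (c : Fin r → ℤ) (ε : Fin r → Bool)
  (J : Fin r → List ℕ) (e : Fin r → ℤ), m = ∑ k, e k •
    (sim n (c k) * (if ε k then spin n else 1) * ((J k).map (ext n)).prod)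

/-- main theorem, part 1 -/
def StmMain : Prop := ∀ (S : Finset Nat.Primes) (𝒮 : ∀ n, Set (Par n)) (𝒢 : ∀ m, Set (GPar m)),
  Closed S 𝒮 𝒢 → ∀ n, ∀ A ∈ 𝒮 n, ∀ m : Rep n, IsW m → SpinProduct S 𝒮 (LS S A m)

/-- main theorem, part 2 -/
def StmCont : Prop := ∀ (S : Finset Nat.Primes) (𝒮 : ∀ n, Set (Par n)) (𝒢 : ∀ m, Set (GPar m)),
  Closed S 𝒮 𝒢 → (∀ n, 1 ≤ n → ∀ A ∈ 𝒮 n, Continues (LS S A (spin n))) →
    ∀ n, ∀ A ∈ 𝒮 n, ∀ m : Rep n, IsW m → Continues (LS S A m)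

end Pool.Agent.V8H32.SP
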