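import Mathlib

/-!
# Satake parameters of `GSp(2n)`, Euler products, the spin representation, induction from Levi subgroups

A (representation `π` unramified outside `S` of the) group `GSp(2n)` is given by its Satake parameters
`(a₀; a₁, …, a_n)`, `a₀, a_i ∈ ℂ^*`, at the primes `p ∉ S`. The weights of the dual torus of
`GSpin(2n+1, ℂ)` are the pairs `(w₀, w) ∈ ℤ × ℤ^n`, with the values `a₀^{w₀} ∏ a_i^{w_i}`; the Weyl group is
generated by the permutations of the `a_i` and by `a₀ ↦ a₀ a_i, a_i ↦ a_i⁻¹`.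
-/

set_option autoImplicit false

namespace Pool.Agent.V8H32.SP

open Filter Topology
open scoped Classical

/-- parameters of a representation of `GSp(2n)` -/
structure Par (n : ℕ) where
  a0 : Nat.Primes → ℂ
  a : Nat.Primes → Fin n → ℂ

/-- parameters of a representation of `GL(m)` -/
abbrev GPar (m : ℕ) : Type := Nat.Primes → Fin m → ℂ

/-- a virtual representation of the dual group, given by the multiplicities of its weights -/
abbrev Rep (n : ℕ) : Type := AddMonoidAlgebra ℤ (ℤ × (Fin n → ℤ))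

/-- invariance under the Weyl group: the characters of the representations of `GSpin(2n+1, ℂ)` have this
property -/
def IsW {n : ℕ} (m : Rep n) : Prop :=
  (∀ (σ : Equiv.Perm (Fin n)) (w : ℤ × (Fin n → ℤ)), m.coeff (w.1, w.2 ∘ σ) = m.coeff w) ∧
  ∀ (i : Fin n) (w : ℤ × (Fin n → ℤ)), m.coeff (w.1, Function.update w.2 i (w.1 - w.2 i)) = m.coeff w

/-- the value of a weight -/
noncomputable def Par.ev {n : ℕ} (A : Par n) (p : Nat.Primes) (w : ℤ × (Fin n → ℤ)) : ℂ :=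
  A.a0 p ^ w.1 * ∏ i, A.a p i ^ w.2 i

/-- `L_S(s, π, ρ)` -/
noncomputable def LS (S : Finset Nat.Primes) {n : ℕ} (A : Par n) (m : Rep n) (s : ℂ) : ℂ :=
  ∏' p : Nat.Primes, if p ∈ S then 1 else
    m.coeff.prod (fun w e => (1 - A.ev p w * ((p : ℕ) : ℂ) ^ (-s)) ^ (-e))

/-- the spin representation, of degree `2^n` -/
noncomputable def spin (n : ℕ) : Rep n :=
  ∑ I : Finset (Fin n), AddMonoidAlgebra.single (1, fun i => if i ∈ I then 1 else 0) 1

/-- the `k`-th power of the similitude character -/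
noncomputable def sim (n : ℕ) (k : ℤ) : Rep n := AddMonoidAlgebra.single (2 * k, fun _ => k) 1

/-- the weights `0, e_i, -e_i` of the standard representation of degree `2n + 1` -/
def stw {n : ℕ} : Unit ⊕ Fin n ⊕ Fin n → ℤ × (Fin n → ℤ)
  | Sum.inl _ => (0, 0)
  | Sum.inr (Sum.inl i) => (0, Pi.single i 1)
  | Sum.inr (Sum.inr i) => (0, -Pi.single i 1)

/-- the `j`-th exterior power of the standard representation of degree `2n + 1` -/
noncomputable def ext (n j : ℕ) : Rep n :=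
  ∑ I ∈ (Finset.univ : Finset (Unit ⊕ Fin n ⊕ Fin n)).powersetCard j,
    AddMonoidAlgebra.single (∑ x ∈ I, stw x) 1

/-- the parameters are bounded by powers of `p` -/
def Tame (S : Finset Nat.Primes) {n : ℕ} (A : Par n) : Prop :=
  ∃ C : ℝ, 0 ≤ C ∧ ∀ p, p ∉ S → A.a0 p ≠ 0 ∧ ‖A.a0 p‖ ≤ ((p : ℕ) : ℝ) ^ C ∧ ‖(A.a0 p)⁻¹‖ ≤ ((p : ℕ) : ℝ) ^ C ∧
    ∀ i, A.a p i ≠ 0 ∧ ‖A.a p i‖ ≤ ((p : ℕ) : ℝ) ^ C ∧ ‖(A.a p i)⁻¹‖ ≤ ((p : ℕ) : ℝ) ^ C

/-- the same for `GL(m)` -/
def GTame (S : Finset Nat.Primes) {m : ℕ} (b : GPar m) : Prop :=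
  ∃ C : ℝ, 0 ≤ C ∧ ∀ p, p ∉ S → ∀ i, b p i ≠ 0 ∧ ‖b p i‖ ≤ ((p : ℕ) : ℝ) ^ C ∧
    ‖(b p i)⁻¹‖ ≤ ((p : ℕ) : ℝ) ^ C

/-- The parameters of the representations of `GSp(2(n+m))` induced from the parabolic subgroup with the
Levi factor `GSp(2n) × GL(m)` and the representation `π ⊗ σ|det|^u`. -/
noncomputable def Par.ind {n m : ℕ} (A : Par n) (b : GPar m) (u : ℝ) : Par (n + m) where
  a0 := A.a0
  a := fun p => Fin.append (A.a p) (fun i => b p i * ((p : ℕ) : ℂ) ^ (-(u : ℂ)))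

/-- the similitude character of the parameters (the parameter of the central character of `π`) -/
noncomputable def Par.simv {n : ℕ} (A : Par n) (p : Nat.Primes) : ℂ := A.a0 p ^ 2 * ∏ i, A.a p i

/-- the parameters of `π` twisted by the `k`-th power of its central character -/
noncomputable def Par.twist {n : ℕ} (A : Par n) (k : ℤ) : Par n where
  a0 := fun p => A.a0 p * A.simv p ^ k
  a := A.a

/-- the `k`-th power of the central character, as a representation of `GSp(0) = GL(1)` -/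
noncomputable def Par.central {n : ℕ} (A : Par n) (k : ℤ) : Par 0 where
  a0 := fun p => A.simv p ^ k
  a := fun _ => Fin.elim0

/-- the parameters `(1, a_i, a_i⁻¹)` of the transfer of `π` to `GL(2n+1)` -/
noncomputable def Par.std {n : ℕ} (A : Par n) : GPar (1 + n + n) :=
  fun p => Fin.append (Fin.append (fun _ : Fin 1 => 1) (A.a p)) (fun i => (A.a p i)⁻¹)

/-- Classes `𝒮 n` of representations of `GSp(2n)` and `𝒢 m` of representations of `GL(m)`, unramified
outside `S`, closed under parabolic induction (Langlands), under the transfer from `GSp(2n)` to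
`GL(2n+1)` (Arthur) and under twisting by powers of the central character: for instance the classes
of all automorphic representations unramified outside `S`. -/
structure Closed (S : Finset Nat.Primes) (𝒮 : ∀ n, Set (Par n)) (𝒢 : ∀ m, Set (GPar m)) : Prop where
  tame : ∀ n, ∀ A ∈ 𝒮 n, Tame S A
  gtame : ∀ m, ∀ b ∈ 𝒢 m, GTame S b
  ind : ∀ n m, ∀ A ∈ 𝒮 n, ∀ b ∈ 𝒢 m, ∀ u : ℝ, 0 ≤ u → A.ind b u ∈ 𝒮 (n + m)
  std : ∀ n, ∀ A ∈ 𝒮 n, A.std ∈ 𝒢 (1 + n + n)
  twist : ∀ n, ∀ A ∈ 𝒮 n, ∀ k : ℤ, A.twist k ∈ 𝒮 n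
  central : ∀ n, ∀ A ∈ 𝒮 n, ∀ k : ℤ, A.central k ∈ 𝒮 0

/-- On every half-plane `Re s > -R` the function `L` is the product of a holomorphic function without
zeros and of finitely many integral powers of translates of spin L-functions of members of the
classes `𝒮 N`, `N ≥ 1`. -/
def SpinProduct (S : Finset Nat.Primes) (𝒮 : ∀ n, Set (Par n)) (L : ℂ → ℂ) : Prop :=
  ∀ R : ℝ, ∃ (r : ℕ) (N : Fin r → ℕ) (A : ∀ k, Par (N k)) (c : Fin r → ℝ) (e : Fin r → ℤ) (E : ℂ → ℂ)
    (σ : ℝ), (∀ k, 1 ≤ N k ∧ A k ∈ 𝒮 (N k)) ∧ AnalyticOnNhd ℂ E {s | -R < s.re} ∧ (∀ s : ℂ, -R < s.re → E s ≠ 0) ∧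
    ∀ s : ℂ, σ < s.re → L s = E s * ∏ k, LS S (A k) (spin (N k)) (s + c k) ^ e k

/-- `L`, given in some right half-plane, has a meromorphic continuation to `ℂ`. -/
def Continues (L : ℂ → ℂ) : Prop :=
  ∃ (Λ : ℂ → ℂ) (σ : ℝ), (∀ s, MeromorphicAt Λ s) ∧ ∀ s : ℂ, σ < s.re → L s = Λ s

end Pool.Agent.V8H32.SP
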